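import Pool.Agent.V11225.IS.Final

/-!
# The numbers of the constructed instances are small
-/

namespace Pool.Agent.V11225.IS

open Finset Pool.Agent.NPC Pool.Agent.H633R2

theorem gk_le (x : Inp) : gk x ≤ gn x := min_le_right _ _

theorem four (x : Inp) : 2 * (gk x * gk x * (gn x * gn x)) + 1 ≤ 2 * (gn x + 1) ^ 4 := by
  have h : gk x * gk x * (gn x * gn x) ≤ gn x * gn x * (gn x * gn x) :=
    Nat.mul_le_mul_right _ (Nat.mul_le_mul (gk_le x) (gk_le x))
  generalize gn x = n at *
  nlinarith [Nat.zero_le (n ^ 3), Nat.zero_le (n ^ 2), Nat.zero_le n]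

theorem job_bound (x : Inp) (t : Tag) (ht : t ∈ tags (gn x) (gk x) (gAdj x)) :
    weight (jobOf (gn x) (gk x) t) ≤ 6 * (gn x + 1) ^ 5 ∧
      due (jobOf (gn x) (gk x) t) ≤ 2 * (gn x + 1) ^ 4 := by
  have h4 := four x
  rcases List.mem_append.1 ht with h | h
  · obtain ⟨i, hi, t, ht, u, hu, rfl⟩ := mem_privs.1 h
    constructor
    · change pw (gn x) (WW (gn x) (gk x)) (ws (gn x) (gk x) i).length t u ≤ _
      unfold pw WW
      generalize 2 * (gk x * gk x * (gn x * gn x)) + 1 = W at h4 ⊢
      generalize gn x = n at *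
      have e1 : W * u ≤ W * (n + 1) := Nat.mul_le_mul_left _ (by omega)
      have e2 : W * (n - u) ≤ W * (n + 1) := Nat.mul_le_mul_left _ (by omega)
      have e3 : W * (n + 1) ≤ 2 * (n + 1) ^ 4 * (n + 1) := Nat.mul_le_mul_right _ h4
      have e4 : 2 * (n + 1) ^ 4 * (n + 1) = 2 * (n + 1) ^ 5 := by ring
      split_ifs <;> omega
    · change pb (PP (gn x) (gk x)) (ws (gn x) (gk x) i) t u ≤ _
      have hW := wins_ws (gn x) (gk x) i (by omega)
      unfold pb
      split_ifs with h5
      · have h6 := hW.facts h5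
        have h7 := st_le (w := (ws (gn x) (gk x) i).getD t (0, 0)) h6.1 hu
        have h8 := h6.2
        unfold PP at h8
        omega
      · unfold PP
        omega
  · obtain ⟨r, hr, a, ha, b, hb, hact, h⟩ := mem_shs.1 h
    have hj : jobOf (gn x) (gk x) t = js (gn x) (gk x) r a b := by
      rcases h with rfl | ⟨_, rfl⟩ <;> rfl
    rw [hj]
    constructor
    · change 1 ≤ _
      have : 1 ≤ (gn x + 1) ^ 5 := Nat.one_le_pow _ _ (by omega)
      omega
    · change 2 * slot (gn x) r a b + 2 ≤ _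
      have h5 := reg_le hr hb
      unfold slot
      have h6 : 2 * (gk x * gk x * (gn x * gn x)) + 1 ≤ 2 * (gn x + 1) ^ 4 := h4
      omega

/-- all the numbers of the constructed instances are polynomial in the number of vertices -/
theorem red_bound (x : Inp) : ∀ j ∈ jobs (red x).1,
    weight j ≤ 6 * (x.1.length + 1) ^ 5 ∧ due j ≤ 2 * (x.1.length + 1) ^ 4 := by
  have hj : jobs (red x).1 = (redV x).1.2 := rfl
  rw [hj]
  unfold redV
  split_ifs with h
  · intro j hj
    simp only at hj
    rw [gJ_eq, List.mem_map] at hj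
    obtain ⟨t, ht, rfl⟩ := hj
    exact job_bound x t ht
  · intro j hj
    simp only [List.mem_cons, List.not_mem_nil, or_false] at hj
    subst hj
    have h1 : 1 ≤ (x.1.length + 1) ^ 5 := Nat.one_le_pow _ _ (by omega)
    have h2 : 1 ≤ (x.1.length + 1) ^ 4 := Nat.one_le_pow _ _ (by omega)
    constructor
    · change 1 ≤ _
      omega
    · change 1 ≤ _
      omega

/-- The reduction from Clique. -/
theorem reduction : ∃ f : List (List Bool) × ℕ → Inst × ℕ, Poly f ∧
    ∀ x, (HasClique x ↔ minLate (f x).1 ≤ (f x).2) ∧ machines (f x).1 ≤ x.2 + 1 ∧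
      ∀ j ∈ jobs (f x).1, weight j ≤ 6 * (x.1.length + 1) ^ 5 ∧
        due j ≤ 2 * (x.1.length + 1) ^ 4 :=
  ⟨red, p_red, fun x => ⟨red_iff x, red_machines x, red_bound x⟩⟩

end Pool.Agent.V11225.IS
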