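import Mathlib

/-!
# One machine with a list of windows
-/

namespace Pool.Agent.V11225.IS

open Finset

/-- start of the window `w` for the value `u` -/
def st (w : ℕ × ℕ) (u : ℕ) : ℕ := 2 * (w.1 + w.2 * u) + 1

/-- end of the window `w` for the value `u` -/
def en (w : ℕ × ℕ) (u : ℕ) : ℕ := 2 * (w.1 + w.2 * u + w.2)

/-- start of the private job number `t` for the value `u` -/
def pa (l : List (ℕ × ℕ)) (t u : ℕ) : ℕ := if t = 0 then 0 else en (l.getD (t - 1) (0, 0)) u

/-- end of the private job number `t` for the value `u` -/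
def pb (P : ℕ) (l : List (ℕ × ℕ)) (t u : ℕ) : ℕ :=
  if t < l.length then st (l.getD t (0, 0)) u else 2 * P + 1

/-- lists of windows in increasing order -/
structure Wins (n P : ℕ) (l : List (ℕ × ℕ)) : Prop where
  pair : l.Pairwise (fun x y => x.1 + x.2 * n ≤ y.1)
  pos : ∀ x ∈ l, 1 ≤ x.2
  le : ∀ x ∈ l, x.1 + x.2 * n ≤ P

variable {n P : ℕ} {l : List (ℕ × ℕ)}

theorem getD_eq (l : List (ℕ × ℕ)) {t : ℕ} (ht : t < l.length) : l.getD t (0, 0) = l[t] := by
  rw [List.getD_eq_getElem?_getD, List.getElem?_eq_getElem ht, Option.getD_some]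

/-- all about the window number `t` -/
theorem Wins.facts (h : Wins n P l) {t : ℕ} (ht : t < l.length) :
    1 ≤ (l.getD t (0, 0)).2 ∧ (l.getD t (0, 0)).1 + (l.getD t (0, 0)).2 * n ≤ P := by
  rw [getD_eq l ht]
  exact ⟨h.pos _ (List.getElem_mem _), h.le _ (List.getElem_mem _)⟩

theorem Wins.order (h : Wins n P l) {s t : ℕ} (hst : s < t) (ht : t < l.length) :
    (l.getD s (0, 0)).1 + (l.getD s (0, 0)).2 * n ≤ (l.getD t (0, 0)).1 := by
  rw [getD_eq l ht, getD_eq l (hst.trans ht)]
  exact List.pairwise_iff_getElem.1 h.pair s t (hst.trans ht) ht hst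

theorem st_le {w : ℕ × ℕ} {u n : ℕ} (hw : 1 ≤ w.2) (hu : u < n) : st w u ≤ 2 * (w.1 + w.2 * n) := by
  unfold st
  have : w.2 * u + w.2 ≤ w.2 * n := by
    rw [← Nat.mul_succ]
    exact Nat.mul_le_mul_left _ hu
  omega

theorem en_le {w : ℕ × ℕ} {u n : ℕ} (hu : u < n) : en w u ≤ 2 * (w.1 + w.2 * n) := by
  unfold en
  have : w.2 * u + w.2 ≤ w.2 * n := by
    rw [← Nat.mul_succ]
    exact Nat.mul_le_mul_left _ hu
  omega

theorem le_st (w : ℕ × ℕ) (u : ℕ) : 2 * w.1 + 1 ≤ st w u := by
  unfold st
  omega

theorem le_en (w : ℕ × ℕ) (u : ℕ) : 2 * w.1 ≤ en w u := by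
  unfold en
  omega

/-- two private jobs with the same number overlap -/
theorem Wins.overlap (h : Wins n P l) {t u u' : ℕ} (ht : t ≤ l.length) (hu : u < n) :
    pa l t u < pb P l t u' := by
  unfold pa pb
  rcases Nat.eq_zero_or_pos t with h0 | h0
  · rw [if_pos h0]
    split_ifs
    · exact lt_of_lt_of_le (Nat.succ_pos _) (le_st _ _)
    · omega
  · rw [if_neg (by omega)]
    have h1 : t - 1 < l.length := by omega
    have h2 := en_le (w := l.getD (t - 1) (0, 0)) hu
    split_ifs with h3
    · have h4 := h.order (s := t - 1) (t := t) (by omega) h3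
      have h5 := le_st (l.getD t (0, 0)) u'
      omega
    · have h4 := (h.facts h1).2
      omega

/-- consecutive private jobs have nondecreasing values -/
theorem Wins.mono (h : Wins n P l) {t u u' : ℕ} (ht : t < l.length) (hu : u < n) (_hu' : u' < n)
    (hc : pb P l t u ≤ pa l (t + 1) u' ∨ pb P l (t + 1) u' ≤ pa l t u) : u ≤ u' := by
  have h0 := h.overlap (t := t) (u := u) (u' := u) ht.le hu
  have h1 : pb P l t u = st (l.getD t (0, 0)) u := if_pos ht
  have h2 : pb P l t u ≤ pb P l (t + 1) u' := by
    rw [h1]
    have h3 := st_le (w := l.getD t (0, 0)) (h.facts ht).1 hu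
    unfold pb
    split_ifs with h4
    · have h5 := h.order (s := t) (t := t + 1) (by omega) h4
      have h6 := le_st (l.getD (t + 1) (0, 0)) u'
      omega
    · have := (h.facts ht).2
      omega
  rcases hc with hc | hc
  · rw [h1] at hc
    have h3 : pa l (t + 1) u' = en (l.getD t (0, 0)) u' := by
      unfold pa
      rw [if_neg (by omega), Nat.add_sub_cancel]
    rw [h3] at hc
    by_contra hlt
    push Not at hlt
    have h4 : (l.getD t (0, 0)).2 * u' + (l.getD t (0, 0)).2 ≤ (l.getD t (0, 0)).2 * u := by
      rw [← Nat.mul_succ]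
      exact Nat.mul_le_mul_left _ hlt
    unfold st en at hc
    omega
  · omega

/-- a slot which is free of all private jobs with value `u` is in a window -/
theorem open_of_free {p u : ℕ} (hp : p < P)
    (hf : ∀ t ≤ l.length, 2 * p + 2 ≤ pa l t u ∨ pb P l t u ≤ 2 * p + 1) :
    ∃ w ∈ l, w.1 + w.2 * u ≤ p ∧ p < w.1 + w.2 * u + w.2 := by
  classical
  have hq : 2 * p + 2 ≤ pa l l.length u := by
    rcases hf l.length le_rfl with h | h
    · exact h
    · unfold pb at h
      rw [if_neg (lt_irrefl _)] at h
      omega
  have hex : ∃ t, 2 * p + 2 ≤ pa l t u := ⟨_, hq⟩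
  have h1 := Nat.find_spec hex
  have h2 : Nat.find hex ≤ l.length := Nat.find_min' hex hq
  have h3 : Nat.find hex ≠ 0 := by
    intro h0
    rw [h0] at h1
    unfold pa at h1
    rw [if_pos rfl] at h1
    omega
  obtain ⟨t, ht⟩ := Nat.exists_eq_succ_of_ne_zero h3
  have h4 : t < l.length := by omega
  have h5 : ¬ 2 * p + 2 ≤ pa l t u := Nat.find_min hex (by omega)
  have h6 := (hf t h4.le).resolve_left h5
  rw [ht] at h1
  unfold pa at h1
  rw [if_neg (by omega), Nat.succ_eq_add_one, Nat.add_sub_cancel] at h1
  unfold pb at h6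
  rw [if_pos h4] at h6
  refine ⟨l.getD t (0, 0), ?_, ?_, ?_⟩
  · rw [getD_eq l h4]
    exact List.getElem_mem _
  · unfold st at h6
    omega
  · unfold en at h1
    omega

/-- private jobs with the same value are disjoint -/
theorem Wins.disj (h : Wins n P l) {s t u : ℕ} (hst : s < t) (ht : t ≤ l.length) (hu : u < n) :
    pb P l s u ≤ pa l t u := by
  have hs : s < l.length := by omega
  unfold pb pa
  rw [if_pos hs, if_neg (by omega)]
  rcases Nat.eq_or_lt_of_le hst with h1 | h1
  · have : t - 1 = s := by omega
    rw [this]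
    have h2 := (h.facts hs).1
    unfold st en
    omega
  · have h2 := h.order (s := s) (t := t - 1) (by omega) (by omega)
    have h3 := st_le (w := l.getD s (0, 0)) (h.facts hs).1 hu
    have h4 := le_en (l.getD (t - 1) (0, 0)) u
    omega

/-- a slot in a window is free of all private jobs -/
theorem Wins.free_of_open (h : Wins n P l) {p u t : ℕ} {w : ℕ × ℕ} (hw : w ∈ l)
    (h1 : w.1 + w.2 * u ≤ p) (h2 : p < w.1 + w.2 * u + w.2) (ht : t ≤ l.length) (hu : u < n) :
    2 * p + 2 ≤ pa l t u ∨ pb P l t u ≤ 2 * p + 1 := by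
  obtain ⟨s, hs, rfl⟩ := List.mem_iff_getElem.1 hw
  rw [← getD_eq l hs] at h1 h2
  rcases Nat.lt_or_ge s t with hst | hst
  · left
    unfold pa
    rw [if_neg (by omega)]
    rcases Nat.eq_or_lt_of_le hst with h3 | h3
    · have : t - 1 = s := by omega
      rw [this]
      unfold en
      omega
    · have h4 := h.order (s := s) (t := t - 1) (by omega) (by omega)
      have h5 := en_le (w := l.getD s (0, 0)) hu
      have h6 := le_en (l.getD (t - 1) (0, 0)) u
      unfold en at h5
      omega
  · right
    unfold pb
    rw [if_pos (by omega)]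
    rcases Nat.eq_or_lt_of_le hst with h3 | h3
    · subst h3
      unfold st
      omega
    · have h4 := h.order (s := t) (t := s) h3 hs
      have h5 := st_le (w := l.getD t (0, 0)) (h.facts (by omega)).1 hu
      omega

/-- weight of the private job number `t` (of `q + 1`) for the value `u` -/
def pw (n W q t u : ℕ) : ℕ :=
  W * (n + 1) + (if t = 0 then W * u else 0) + (if t = q then W * (n - u) else 0)

theorem chain_weight (q n W : ℕ) (on : ℕ → ℕ → Prop) [∀ t u, Decidable (on t u)]
    (h1 : ∀ t ≤ q, ∀ u < n, ∀ u' < n, on t u → on t u' → u = u')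
    (h2 : ∀ t < q, ∀ u < n, ∀ u' < n, on t u → on (t + 1) u' → u ≤ u') :
    (∑ t ∈ range (q + 1), ∑ u ∈ range n, if on t u then pw n W q t u else 0) + W ≤
        (q + 1) * (W * (n + 1)) + W * n ∨
    ((∑ t ∈ range (q + 1), ∑ u ∈ range n, if on t u then pw n W q t u else 0) ≤
        (q + 1) * (W * (n + 1)) + W * n ∧ ∃ u < n, ∀ t ≤ q, on t u) := by
  have one : ∀ t ≤ q, ∀ u < n, on t u →
      (∑ u ∈ range n, if on t u then pw n W q t u else 0) = pw n W q t u := by
    intro t ht u hu hon
    rw [Finset.sum_eq_single u]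
    · rw [if_pos hon]
    · intro b hb hbu
      rw [if_neg]
      intro hb'
      exact hbu (h1 t ht b (mem_range.1 hb) u hu hb' hon)
    · intro hu'
      exact absurd (mem_range.2 hu) hu'
  by_cases hall : ∀ t ≤ q, ∃ u < n, on t u
  · choose! u hu hon using hall
    have hs : (∑ t ∈ range (q + 1), ∑ u ∈ range n, if on t u then pw n W q t u else 0) =
        (q + 1) * (W * (n + 1)) + W * u 0 + W * (n - u q) := by
      rw [Finset.sum_congr rfl (g := fun t => pw n W q t (u t)) (fun t ht => by
        have ht' : t ≤ q := by have := mem_range.1 ht; omega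
        exact one t ht' (u t) (hu t ht') (hon t ht'))]
      unfold pw
      rw [sum_add_distrib, sum_add_distrib, sum_const, card_range, smul_eq_mul, sum_ite_eq',
        sum_ite_eq', if_pos (mem_range.2 (by omega)), if_pos (mem_range.2 (by omega))]
    have hmono : ∀ t, t ≤ q → u 0 ≤ u t := by
      intro t
      induction t with
      | zero => intro _; exact le_rfl
      | succ t ih =>
        intro ht
        exact (ih (by omega)).trans (h2 t (by omega) _ (hu t (by omega)) _ (hu (t + 1) ht)
          (hon t (by omega)) (hon (t + 1) ht))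
    have hmono' : ∀ d t, t + d = q → u t ≤ u q := by
      intro d
      induction d with
      | zero => intro t ht; rw [← ht]; exact le_rfl
      | succ d ih =>
        intro t ht
        exact (h2 t (by omega) _ (hu t (by omega)) _ (hu (t + 1) (by omega))
          (hon t (by omega)) (hon (t + 1) (by omega))).trans (ih (t + 1) (by omega))
    have hq := hu q le_rfl
    have h0q := hmono q le_rfl
    rcases Nat.eq_or_lt_of_le h0q with he | hlt
    · right
      refine ⟨?_, u 0, hu 0 (by omega), fun t ht => ?_⟩
      · rw [hs, add_assoc, ← Nat.mul_add]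
        refine Nat.add_le_add_left (Nat.mul_le_mul_left _ ?_) _
        omega
      · have h3 := hmono t ht
        have h4 := hmono' (q - t) t (by omega)
        have h5 : u t = u 0 := by omega
        rw [← h5]
        exact hon t ht
    · left
      rw [hs, add_assoc, add_assoc]
      refine Nat.add_le_add_left ?_ _
      rw [← Nat.mul_succ, ← Nat.mul_add]
      refine Nat.mul_le_mul_left _ ?_
      omega
  · push Not at hall
    obtain ⟨t0, ht0, hno⟩ := hall
    left
    have hbound : (∑ t ∈ range (q + 1),
        ((∑ u ∈ range n, if on t u then pw n W q t u else 0) +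
          if t = t0 then W * (n + 1) else 0)) ≤
        ∑ t ∈ range (q + 1),
          (W * (n + 1) + (if t = 0 then W * n else 0) + (if t = q then W * n else 0)) := by
      refine sum_le_sum fun t ht => ?_
      have ht' : t ≤ q := by have := mem_range.1 ht; omega
      by_cases htt : t = t0
      · rw [if_pos htt]
        have : (∑ u ∈ range n, if on t u then pw n W q t u else 0) = 0 := by
          refine sum_eq_zero fun u hu => ?_
          rw [if_neg]
          rw [htt]
          exact hno u (mem_range.1 hu)
        rw [this]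
        omega
      · rw [if_neg htt, add_zero]
        by_cases hex : ∃ u < n, on t u
        · obtain ⟨u, hu, hon⟩ := hex
          rw [one t ht' u hu hon]
          unfold pw
          have e1 : W * u ≤ W * n := Nat.mul_le_mul_left _ hu.le
          have e2 : W * (n - u) ≤ W * n := Nat.mul_le_mul_left _ (Nat.sub_le _ _)
          split_ifs <;> omega
        · push Not at hex
          have : (∑ u ∈ range n, if on t u then pw n W q t u else 0) = 0 := by
            refine sum_eq_zero fun u hu => ?_
            rw [if_neg]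
            exact hex u (mem_range.1 hu)
          rw [this]
          omega
    rw [sum_add_distrib, sum_add_distrib, sum_add_distrib, sum_const, card_range, smul_eq_mul,
      sum_ite_eq', sum_ite_eq', sum_ite_eq', if_pos (mem_range.2 (by omega)),
      if_pos (mem_range.2 (by omega)), if_pos (mem_range.2 (by omega))] at hbound
    have e3 : W * (n + 1) = W * n + W := Nat.mul_succ _ _
    omega

/-- the private jobs of the value `u` -/
theorem chain_weight_eq (q n W u : ℕ) (hu : u < n) (on : ℕ → ℕ → Prop)
    [∀ t u, Decidable (on t u)] (hon : ∀ t ≤ q, ∀ v < n, (on t v ↔ v = u)) :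
    (∑ t ∈ range (q + 1), ∑ v ∈ range n, if on t v then pw n W q t v else 0) =
        (q + 1) * (W * (n + 1)) + W * n := by
  rw [Finset.sum_congr rfl (g := fun t => pw n W q t u) (fun t ht => by
    have ht' : t ≤ q := by have := mem_range.1 ht; omega
    rw [Finset.sum_eq_single u]
    · rw [if_pos ((hon t ht' u hu).2 rfl)]
    · intro b hb hbu
      rw [if_neg]
      intro hb'
      exact hbu ((hon t ht' b (mem_range.1 hb)).1 hb')
    · intro hu'
      exact absurd (mem_range.2 hu) hu')]
  unfold pw
  rw [sum_add_distrib, sum_add_distrib, sum_const, card_range, smul_eq_mul, sum_ite_eq',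
    sum_ite_eq', if_pos (mem_range.2 (by omega)), if_pos (mem_range.2 (by omega)), add_assoc,
    ← Nat.mul_add]
  congr 2
  omega

end Pool.Agent.V11225.IS
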