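import Pool.Agent.V11225.IS.Sound

/-!
# Completeness of the reduction
-/

namespace Pool.Agent.V11225.IS

open Finset

/-- the schedule of a clique `u` -/
def sol (k : ℕ) (u : ℕ → ℕ) : Tag → Option ℕ
  | .inl (i, _, v) => if v = u i then some i else none
  | .inr (c, r, a, b) =>
    if c = true then (if a = u (r / k) ∧ b = u (r % k) then some (r % k) else none)
    else if a = u (r / k) then some (r / k) else if b = u (r % k) then some (r % k) else none

variable {n k : ℕ} {adj : ℕ → ℕ → Bool} {u : ℕ → ℕ}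

theorem sol_inl {i t v j : ℕ} (h : sol k u (Sum.inl (i, t, v)) = some j) : v = u i ∧ j = i := by
  simp only [sol] at h
  split_ifs at h with h1
  exact ⟨h1, (Option.some.inj h).symm⟩

theorem sol_inr {c : Bool} {r a b j : ℕ} (h : sol k u (Sum.inr (c, r, a, b)) = some j) :
    (j = r / k ∧ c = false ∧ a = u (r / k)) ∨
    (j = r % k ∧ b = u (r % k) ∧ (c = true ∧ a = u (r / k) ∨ c = false ∧ a ≠ u (r / k))) := by
  cases c
  · simp only [sol, Bool.false_eq_true, if_false] at h
    split_ifs at h with h1 h2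
    · exact Or.inl ⟨(Option.some.inj h).symm, rfl, h1⟩
    · exact Or.inr ⟨(Option.some.inj h).symm, h2, Or.inr ⟨rfl, h1⟩⟩
  · simp only [sol, if_true] at h
    split_ifs at h with h1
    exact Or.inr ⟨(Option.some.inj h).symm, h1.2, Or.inl ⟨rfl, h1.1⟩⟩

/-- the slot of a scheduled shared job is open -/
theorem sol_open {c : Bool} {r a b j : ℕ} (hr : r < k * k) (ha : a < n) (hb : b < n)
    (hu : ∀ i < k, u i < n) (hact : r / k < r % k)
    (h : sol k u (Sum.inr (c, r, a, b)) = some j) : j < k ∧ ∃ w ∈ ws n k j,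
      w.1 + w.2 * u j ≤ slot n r a b ∧ slot n r a b < w.1 + w.2 * u j + w.2 := by
  have hi := div_lt_of hr
  have hj := mod_lt_of hr
  rcases sol_inr h with ⟨rfl, _, h1⟩ | ⟨rfl, h1, _⟩
  · exact ⟨hi, (open_iff (hu _ hi) hb ha hr).2 (Or.inr ⟨by omega, h1⟩)⟩
  · exact ⟨hj, (open_iff (hu _ hj) hb ha hr).2 (Or.inl ⟨rfl, h1⟩)⟩

theorem sol_sch (hn : 0 < n) (hu : ∀ i < k, u i < n) : Sch n k adj (sol k u) := by
  constructor
  · intro x hx i hs
    rcases x with ⟨i', t, v⟩ | ⟨c, r, a, b⟩
    · have := sol_inl hs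
      simp [jobOf, jp, IS.elig, this.2]
    · rcases sol_inr hs with h | h
      · simp [jobOf, js, IS.elig, h.1]
      · simp [jobOf, js, IS.elig, h.1]
  · intro x hx y hy i hxy hsx hsy
    rcases x with ⟨i1, t1, v1⟩ | ⟨c1, r1, a1, b1⟩ <;> rcases y with ⟨i2, t2, v2⟩ | ⟨c2, r2, a2, b2⟩
    · -- two private jobs
      obtain ⟨rfl, rfl⟩ := sol_inl hsx
      obtain ⟨h2, rfl⟩ := sol_inl hsy
      subst h2
      rcases List.mem_append.1 hx with hx | hx
      · obtain ⟨j, hj, t, ht, w, hw, h⟩ := mem_privs.1 hx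
        simp only [Sum.inl.injEq, Prod.mk.injEq] at h
        obtain ⟨rfl, rfl, rfl⟩ := h
        rcases List.mem_append.1 hy with hy | hy
        · obtain ⟨j, hj', t', ht', w', hw', h⟩ := mem_privs.1 hy
          simp only [Sum.inl.injEq, Prod.mk.injEq] at h
          obtain ⟨rfl, rfl, -⟩ := h
          have hne : t1 ≠ t2 := by
            intro h
            subst h
            exact hxy rfl
          have hW := wins_ws n k i hn
          rcases Nat.lt_or_gt_of_ne hne with h | h
          · left
            exact hW.disj h ht' hw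
          · right
            exact hW.disj h ht hw
        · obtain ⟨_, _, _, _, _, _, _, h⟩ := mem_shs.1 hy
          simp at h
      · obtain ⟨_, _, _, _, _, _, _, h⟩ := mem_shs.1 hx
        simp at h
    · -- private, shared
      obtain ⟨rfl, rfl⟩ := sol_inl hsx
      rcases List.mem_append.1 hx with hx | hx
      · obtain ⟨j, hj, t, ht, w, hw, h⟩ := mem_privs.1 hx
        simp only [Sum.inl.injEq, Prod.mk.injEq] at h
        obtain ⟨rfl, rfl, rfl⟩ := h
        rcases List.mem_append.1 hy with hy | hy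
        · obtain ⟨_, _, _, _, _, _, h⟩ := mem_privs.1 hy
          simp at h
        · obtain ⟨r, hr, a, ha, b, hb, hact, h⟩ := mem_shs.1 hy
          have he : r = r2 ∧ a = a2 ∧ b = b2 := by
            rcases h with h | ⟨_, h⟩ <;>
            · simp only [Sum.inr.injEq, Prod.mk.injEq] at h
              exact ⟨h.2.1.symm, h.2.2.1.symm, h.2.2.2.symm⟩
          obtain ⟨rfl, rfl, rfl⟩ := he
          obtain ⟨_, w, hw', h1, h2⟩ := sol_open hr ha hb hu hact hsy
          have := (wins_ws n k i hn).free_of_open hw' h1 h2 ht hw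
          exact this.symm
      · obtain ⟨_, _, _, _, _, _, _, h⟩ := mem_shs.1 hx
        simp at h
    · -- shared, private
      obtain ⟨rfl, rfl⟩ := sol_inl hsy
      rcases List.mem_append.1 hy with hy | hy
      · obtain ⟨j, hj, t, ht, w, hw, h⟩ := mem_privs.1 hy
        simp only [Sum.inl.injEq, Prod.mk.injEq] at h
        obtain ⟨rfl, rfl, rfl⟩ := h
        rcases List.mem_append.1 hx with hx | hx
        · obtain ⟨_, _, _, _, _, _, h⟩ := mem_privs.1 hx
          simp at h
        · obtain ⟨r, hr, a, ha, b, hb, hact, h⟩ := mem_shs.1 hx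
          have he : r = r1 ∧ a = a1 ∧ b = b1 := by
            rcases h with h | ⟨_, h⟩ <;>
            · simp only [Sum.inr.injEq, Prod.mk.injEq] at h
              exact ⟨h.2.1.symm, h.2.2.1.symm, h.2.2.2.symm⟩
          obtain ⟨rfl, rfl, rfl⟩ := he
          obtain ⟨_, w, hw', h1, h2⟩ := sol_open hr ha hb hu hact hsx
          have := (wins_ws n k i hn).free_of_open hw' h1 h2 ht hw
          exact this
      · obtain ⟨_, _, _, _, _, _, _, h⟩ := mem_shs.1 hy
        simp at h
    · -- shared, shared
      rcases List.mem_append.1 hx with hx | hx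
      · obtain ⟨_, _, _, _, _, _, h⟩ := mem_privs.1 hx
        simp at h
      rcases List.mem_append.1 hy with hy | hy
      · obtain ⟨_, _, _, _, _, _, h⟩ := mem_privs.1 hy
        simp at h
      obtain ⟨r, hr, a, ha, b, hb, hact, h⟩ := mem_shs.1 hx
      have he : r = r1 ∧ a = a1 ∧ b = b1 := by
        rcases h with h | ⟨_, h⟩ <;>
        · simp only [Sum.inr.injEq, Prod.mk.injEq] at h
          exact ⟨h.2.1.symm, h.2.2.1.symm, h.2.2.2.symm⟩
      obtain ⟨rfl, rfl, rfl⟩ := he
      obtain ⟨r', hr', a', ha', b', hb', hact', h'⟩ := mem_shs.1 hy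
      have he : r' = r2 ∧ a' = a2 ∧ b' = b2 := by
        rcases h' with h' | ⟨_, h'⟩ <;>
        · simp only [Sum.inr.injEq, Prod.mk.injEq] at h'
          exact ⟨h'.2.1.symm, h'.2.2.1.symm, h'.2.2.2.symm⟩
      obtain ⟨rfl, rfl, rfl⟩ := he
      change 2 * slot n r a b + 2 ≤ 2 * slot n r' a' b' + 1 ∨
        2 * slot n r' a' b' + 2 ≤ 2 * slot n r a b + 1
      by_contra hcon
      have hs : slot n r a b = slot n r' a' b' := by omega
      obtain ⟨rfl, rfl, rfl⟩ := slot_inj hb ha hb' ha' hs
      have hc : c1 ≠ c2 := by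
        intro h
        subst h
        exact hxy rfl
      rcases sol_inr hsx with h1 | h1 <;> rcases sol_inr hsy with h2 | h2
      · exact hc (h1.2.1.trans h2.2.1.symm)
      · omega
      · omega
      · rcases h1.2.2 with h3 | h3 <;> rcases h2.2.2 with h4 | h4
        · exact hc (h3.1.trans h4.1.symm)
        · exact h4.2 h3.2
        · exact h3.2 h4.2
        · exact hc (h3.1.trans h4.1.symm)

theorem sol_val (hu : ∀ i < k, u i < n)
    (hadj : ∀ i < k, ∀ j < k, i < j → adj (u i) (u j) = true) :
    val n k adj (sol k u) = target n k := by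
  rw [val_eq]
  unfold target
  congr 1
  · refine sum_congr rfl fun i hi => ?_
    refine chain_weight_eq _ n (WW n k) (u i) (hu i (mem_range.1 hi))
      (fun t v => (sol k u (Sum.inl (i, t, v))).isSome = true) ?_
    intro t _ v _
    simp only [sol]
    split_ifs with h
    · simp [h]
    · simp [h]
  · refine sum_congr rfl fun r hr => ?_
    have hr' := mem_range.1 hr
    by_cases hact : r / k < r % k
    · rw [if_pos hact]
      rw [← sum_cells n (u (r / k)) (u (r % k)) (hu _ (div_lt_of hr')) (hu _ (mod_lt_of hr'))]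
      refine sum_congr rfl fun a _ => sum_congr rfl fun b _ => ?_
      rw [if_pos hact]
      simp only [sol, Bool.false_eq_true, if_false, if_true]
      by_cases h1 : a = u (r / k)
      · by_cases h2 : b = u (r % k)
        · have h3 : adj a b = true := by
            rw [h1, h2]
            exact hadj _ (div_lt_of hr') _ (mod_lt_of hr') hact
          simp [← h1, ← h2, h3]
        · simp [← h1, h2]
      · by_cases h2 : b = u (r % k)
        · simp [h1, ← h2]
        · simp [h1, h2]
    · rw [if_neg hact]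
      refine sum_eq_zero fun a _ => sum_eq_zero fun b _ => ?_
      rw [if_neg hact]

/-- the equivalence -/
theorem main (n k : ℕ) (hn : 0 < n) (adj : ℕ → ℕ → Bool) :
    (∃ σ, IsSchedule ((tags n k adj).map (jobOf n k)) σ ∧
      target n k ≤ onTimeWeight ((tags n k adj).map (jobOf n k)) σ) ↔
    ∃ u : ℕ → ℕ, (∀ i < k, u i < n) ∧ ∀ i < k, ∀ j < k, i < j → adj (u i) (u j) = true := by
  rw [transfer _ (nodup_tags n k adj)]
  constructor
  · rintro ⟨s, h1, h2, h3⟩
    exact Sch.sound ⟨h1, h2⟩ hn h3
  · rintro ⟨u, hu, hadj⟩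
    have := sol_sch (n := n) (k := k) (adj := adj) hn hu
    exact ⟨sol k u, this.elig, this.disj, (sol_val hu hadj).ge⟩

end Pool.Agent.V11225.IS
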