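import Pool.Agent.H257R2.LJW.Clique
import Pool.Agent.H671R2.PolyAuto

/-!
# Interval scheduling with machine eligibility: the problem

`P | M_j, d_j - r_j = p_j | ∑ w_j U_j`
-/

namespace Pool.Agent.V11225.IS

open Pool.Agent.NPC Pool.Agent.H633R2

/-- A job: (weight, release date, due date, list of the eligible machines).  Its processing time
is (due date) - (release date). -/
abbrev Job := ℕ × ℕ × ℕ × List ℕ

/-- the weight of a job -/
def weight (j : Job) : ℕ := j.1

/-- the release date of a job -/
def release (j : Job) : ℕ := j.2.1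

/-- the due date of a job -/
def due (j : Job) : ℕ := j.2.2.1

/-- the list of the machines on which a job may be processed -/
def elig (j : Job) : List ℕ := j.2.2.2

/-- `(m, L)` is an instance with the machines `0, …, m - 1` (`m ≥ 1`) and the list of jobs `L`: every
job has a positive processing time and its eligible machines are machines. -/
def IsInstance (I : ℕ × List Job) : Prop :=
  1 ≤ I.1 ∧ ∀ j ∈ I.2, release j < due j ∧ ∀ i ∈ elig j, i < I.1

/-- The instances. -/
abbrev Inst := {I : ℕ × List Job // IsInstance I}

instance : TEnc Inst := Pool.Agent.H257R2.LJW.subEnc _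

/-- The number of machines of an instance. -/
def machines (I : Inst) : ℕ := I.1.1

/-- The list of the jobs of an instance. -/
def jobs (I : Inst) : List Job := I.1.2

/-- Feasible schedules of a list of jobs: `σ j = some i` means that job number `j` is processed by
machine `i` during `[release j, due j)`, and `σ j = none` means that job number `j` is late. Jobs are
processed on eligible machines only, and the intervals of two different jobs on the same machine are
disjoint. -/
def IsSchedule (L : List Job) (σ : Fin L.length → Option ℕ) : Prop :=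
  (∀ j i, σ j = some i → i ∈ elig (L.get j)) ∧
  ∀ j j' i, j ≠ j' → σ j = some i → σ j' = some i →
    due (L.get j) ≤ release (L.get j') ∨ due (L.get j') ≤ release (L.get j)

/-- The total weight of the jobs which are on time. -/
def onTimeWeight (L : List Job) (σ : Fin L.length → Option ℕ) : ℕ :=
  ∑ j, if (σ j).isSome then weight (L.get j) else 0

/-- The total weight of the late jobs, `∑ w_j U_j`. -/
def lateWeight (L : List Job) (σ : Fin L.length → Option ℕ) : ℕ :=
  ∑ j, if (σ j).isSome then 0 else weight (L.get j)

/-- The minimum total weight of the late jobs. -/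
noncomputable def minLate (I : Inst) : ℕ :=
  sInf {v | ∃ σ, IsSchedule (jobs I) σ ∧ v = lateWeight (jobs I) σ}

/-- The maximum total weight of the jobs which are on time. -/
noncomputable def maxOnTime (I : Inst) : ℕ :=
  sSup {v | ∃ σ, IsSchedule (jobs I) σ ∧ v = onTimeWeight (jobs I) σ}

/-- all jobs late -/
theorem isSchedule_none (L : List Job) : IsSchedule L (fun _ => none) :=
  ⟨fun _ _ h => by simp at h, fun _ _ _ _ h => by simp at h⟩

theorem on_add_late (L : List Job) (σ : Fin L.length → Option ℕ) :
    onTimeWeight L σ + lateWeight L σ = ∑ j, weight (L.get j) := by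
  unfold onTimeWeight lateWeight
  rw [← Finset.sum_add_distrib]
  refine Finset.sum_congr rfl fun j _ => ?_
  split_ifs <;> simp

theorem total_eq (L : List Job) : ∑ j, weight (L.get j) = (L.map weight).sum := by
  rw [← List.sum_ofFn]
  congr 1
  apply List.ext_getElem
  · simp
  · intro i h1 h2
    simp

theorem minLate_le_iff (I : Inst) (K : ℕ) :
    minLate I ≤ K ↔ ∃ σ, IsSchedule (jobs I) σ ∧ lateWeight (jobs I) σ ≤ K := by
  constructor
  · intro h
    have hne : {v | ∃ σ, IsSchedule (jobs I) σ ∧ v = lateWeight (jobs I) σ}.Nonempty :=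
      ⟨_, fun _ => none, isSchedule_none _, rfl⟩
    obtain ⟨σ, h1, h2⟩ := Nat.sInf_mem hne
    exact ⟨σ, h1, by rw [← h2]; exact h⟩
  · rintro ⟨σ, h1, h2⟩
    exact le_trans (Nat.sInf_le ⟨σ, h1, rfl⟩) h2

theorem le_maxOnTime_iff (I : Inst) (K : ℕ) :
    K ≤ maxOnTime I ↔ ∃ σ, IsSchedule (jobs I) σ ∧ K ≤ onTimeWeight (jobs I) σ := by
  have hne : {v | ∃ σ, IsSchedule (jobs I) σ ∧ v = onTimeWeight (jobs I) σ}.Nonempty :=
    ⟨_, fun _ => none, isSchedule_none _, rfl⟩
  have hb : BddAbove {v | ∃ σ, IsSchedule (jobs I) σ ∧ v = onTimeWeight (jobs I) σ} := by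
    refine ⟨∑ j, weight ((jobs I).get j), ?_⟩
    rintro v ⟨σ, _, rfl⟩
    rw [← on_add_late (jobs I) σ]
    exact Nat.le_add_right _ _
  constructor
  · intro h
    obtain ⟨σ, h1, h2⟩ := Nat.sSup_mem hne hb
    exact ⟨σ, h1, by rw [← h2]; exact h⟩
  · rintro ⟨σ, h1, h2⟩
    exact le_trans h2 (le_csSup hb ⟨σ, h1, rfl⟩)

/-- Schedules of a mapped list without repetitions as functions on the names of the jobs. -/
theorem transfer {τ : Type} [DecidableEq τ] (T : List τ) (hT : T.Nodup) (g : τ → Job) (K : ℕ) :
    (∃ σ, IsSchedule (T.map g) σ ∧ K ≤ onTimeWeight (T.map g) σ) ↔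
    ∃ s : τ → Option ℕ, (∀ x ∈ T, ∀ i, s x = some i → i ∈ elig (g x)) ∧
      (∀ x ∈ T, ∀ y ∈ T, ∀ i, x ≠ y → s x = some i → s y = some i →
        due (g x) ≤ release (g y) ∨ due (g y) ≤ release (g x)) ∧
      K ≤ (T.map (fun x => if (s x).isSome then weight (g x) else 0)).sum := by
  have hlen : (T.map g).length = T.length := List.length_map ..
  constructor
  · rintro ⟨σ, ⟨h1, h2⟩, h3⟩
    have hidx : ∀ x ∈ T, T.idxOf x < (T.map g).length := fun x hx => by
      rw [hlen]; exact List.idxOf_lt_length_iff.2 hx
    refine ⟨fun x => if h : T.idxOf x < (T.map g).length then σ ⟨T.idxOf x, h⟩ else none,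
      ?_, ?_, ?_⟩
    · intro x hx i h
      simp only [dif_pos (hidx x hx)] at h
      have := h1 _ _ h
      simpa using this
    · intro x hx y hy i hxy h h'
      simp only [dif_pos (hidx x hx)] at h
      simp only [dif_pos (hidx y hy)] at h'
      have hne : (⟨T.idxOf x, hidx x hx⟩ : Fin (T.map g).length) ≠ ⟨T.idxOf y, hidx y hy⟩ := by
        intro he
        rw [Fin.mk.injEq] at he
        exact hxy ((List.idxOf_inj hx).1 he)
      have := h2 _ _ _ hne h h'
      simpa using this
    · refine le_trans h3 (le_of_eq ?_)
      unfold onTimeWeight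
      rw [← List.sum_ofFn]
      congr 1
      apply List.ext_getElem
      · simp
      · intro i h4 h5
        have h6 : i < T.length := by simpa using h4
        have h7 : T.idxOf T[i] = i := hT.idxOf_getElem i h6
        simp only [List.getElem_ofFn, List.getElem_map, h7, List.get_eq_getElem]
        rw [dif_pos (by rw [hlen]; exact h6)]
  · rintro ⟨s, h1, h2, h3⟩
    refine ⟨fun j => s (T[(j : ℕ)]'(by rw [← hlen]; exact j.2)), ⟨?_, ?_⟩, ?_⟩
    · intro j i h
      have := h1 _ (List.getElem_mem _) i h
      simpa using this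
    · intro j j' i hjj h h'
      have hne : T[(j : ℕ)]'(by rw [← hlen]; exact j.2) ≠
          T[(j' : ℕ)]'(by rw [← hlen]; exact j'.2) := by
        intro he
        exact hjj (Fin.ext ((List.Nodup.getElem_inj_iff hT).1 he))
      have := h2 _ (List.getElem_mem _) _ (List.getElem_mem _) i hne h h'
      simpa using this
    · refine le_trans h3 (le_of_eq ?_)
      unfold onTimeWeight
      rw [← List.sum_ofFn]
      congr 1
      apply List.ext_getElem
      · simp
      · intro i h4 h5
        simp

end Pool.Agent.V11225.IS
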