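import Pool.Agent.V11225.IS.Comp
import Pool.Agent.H257R2.OS.G1

/-!
# Interval scheduling with machine eligibility is `W[1]`-hard in the number of machines
-/

namespace Pool.Agent.V11225.IS

open Finset Pool.Agent.NPC Pool.Agent.H633R2

/-- inputs -/
abbrev Inp := List (List Bool) × ℕ

def gn (x : Inp) : ℕ := x.1.length
def gk (x : Inp) : ℕ := min x.2 x.1.length
def gW (x : Inp) : ℕ := 2 * (gk x * gk x * (gn x * gn x)) + 1

theorem u_gn : UPoly gn := UPoly.length (Poly.fst Poly.id)
theorem u_gk : UPoly gk := UPoly.of_le (n := gn) (by unfold gk; fun_prop) u_gn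
  (fun _ => min_le_right _ _)
theorem u_gkk : UPoly (fun x => gk x * gk x) := UPoly.mul u_gk u_gk

variable {α : Type} [TEnc α]

theorem p_gn {f : α → Inp} (hf : Poly f) : Poly (fun a => gn (f a)) := u_gn.toPoly.comp hf
theorem p_gk {f : α → Inp} (hf : Poly f) : Poly (fun a => gk (f a)) := u_gk.toPoly.comp hf

attribute [local fun_prop] p_gn p_gk

theorem p_gW {f : α → Inp} (hf : Poly f) : Poly (fun a => gW (f a)) := by
  unfold gW; fun_prop

attribute [local fun_prop] p_gW

theorem r_n {f : α → Inp} (hf : Poly f) : Poly (fun a => List.range (gn (f a))) :=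
  u_gn.range.comp hf
theorem r_k {f : α → Inp} (hf : Poly f) : Poly (fun a => List.range (gk (f a))) :=
  u_gk.range.comp hf
theorem r_kk {f : α → Inp} (hf : Poly f) : Poly (fun a => List.range (gk (f a) * gk (f a))) :=
  u_gkk.range.comp hf

attribute [local fun_prop] r_n r_k r_kk

def gws (x : Inp) (i : ℕ) : List (ℕ × ℕ) :=
  (List.range (gk x * gk x)).flatMap fun r =>
    if r % gk x = i then [(r * (gn x * gn x), gn x)] else
      (List.range (gn x)).map fun b => (r * (gn x * gn x) + b * gn x, 1)

theorem p_gws {f : α → Inp} {i : α → ℕ} (hf : Poly f) (hi : Poly i) :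
    Poly (fun a => gws (f a) (i a)) := by
  unfold gws; fun_prop

attribute [local fun_prop] p_gws

theorem r_q : Poly (fun p : Inp × ℕ => List.range ((gws p.1 p.2).length + 1)) :=
  UPoly.range (UPoly.add (UPoly.length (by fun_prop)) (UPoly.const 1))

theorem r_q' {f : α → Inp} {i : α → ℕ} (hf : Poly f) (hi : Poly i) :
    Poly (fun a => List.range ((gws (f a) (i a)).length + 1)) :=
  r_q.comp (Poly.pair hf hi)

attribute [local fun_prop] r_q'

def gAdj (x : Inp) (i j : ℕ) : Bool := decide (i ≠ j) && (entry x.1 i j || entry x.1 j i)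

theorem p_entry' {f : α → List (List Bool)} {i j : α → ℕ} (hf : Poly f) (hi : Poly i)
    (hj : Poly j) : Poly (fun a => entry (f a) (i a) (j a)) :=
  Pool.Agent.H257R2.LJW.entry_poly hf hi hj

attribute [local fun_prop] p_entry'

theorem p_adj {f : α → Inp} {i j : α → ℕ} (hf : Poly f) (hi : Poly i) (hj : Poly j) :
    Poly (fun a => gAdj (f a) (i a) (j a)) := by
  unfold gAdj; fun_prop

attribute [local fun_prop] p_adj

theorem p_st {w : α → ℕ × ℕ} {u : α → ℕ} (hw : Poly w) (hu : Poly u) :
    Poly (fun a => st (w a) (u a)) := by unfold st; fun_prop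
theorem p_en {w : α → ℕ × ℕ} {u : α → ℕ} (hw : Poly w) (hu : Poly u) :
    Poly (fun a => en (w a) (u a)) := by unfold en; fun_prop

attribute [local fun_prop] p_st p_en

theorem p_pa {l : α → List (ℕ × ℕ)} {t u : α → ℕ} (hl : Poly l) (ht : Poly t) (hu : Poly u) :
    Poly (fun a => pa (l a) (t a) (u a)) := by unfold pa; fun_prop
theorem p_pb {P : α → ℕ} {l : α → List (ℕ × ℕ)} {t u : α → ℕ} (hP : Poly P) (hl : Poly l)
    (ht : Poly t) (hu : Poly u) : Poly (fun a => pb (P a) (l a) (t a) (u a)) := by
  unfold pb; fun_prop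
theorem p_pw {n W q t u : α → ℕ} (hn : Poly n) (hW : Poly W) (hq : Poly q) (ht : Poly t)
    (hu : Poly u) : Poly (fun a => pw (n a) (W a) (q a) (t a) (u a)) := by
  unfold pw; fun_prop

attribute [local fun_prop] p_pa p_pb p_pw

def gjp (x : Inp) (i t u : ℕ) : Job :=
  (pw (gn x) (gW x) (gws x i).length t u, pa (gws x i) t u,
    pb (gk x * gk x * (gn x * gn x)) (gws x i) t u, [i])

theorem p_gjp {f : α → Inp} {i t u : α → ℕ} (hf : Poly f) (hi : Poly i) (ht : Poly t)
    (hu : Poly u) : Poly (fun a => gjp (f a) (i a) (t a) (u a)) := by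
  unfold gjp; fun_prop

def gsl (x : Inp) (r a b : ℕ) : ℕ := r * (gn x * gn x) + b * gn x + a

theorem p_gsl {f : α → Inp} {r a b : α → ℕ} (hf : Poly f) (hr : Poly r) (ha : Poly a)
    (hb : Poly b) : Poly (fun z => gsl (f z) (r z) (a z) (b z)) := by
  unfold gsl; fun_prop

attribute [local fun_prop] p_gjp p_gsl

def gjs (x : Inp) (r a b : ℕ) : Job :=
  (1, 2 * gsl x r a b + 1, 2 * gsl x r a b + 2, [r / gk x, r % gk x])

theorem p_gjs {f : α → Inp} {r a b : α → ℕ} (hf : Poly f) (hr : Poly r) (ha : Poly a)
    (hb : Poly b) : Poly (fun z => gjs (f z) (r z) (a z) (b z)) := by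
  unfold gjs; fun_prop

attribute [local fun_prop] p_gjs

def gl1 (x : Inp) : List Job :=
  (List.range (gk x)).flatMap fun i => (List.range ((gws x i).length + 1)).flatMap fun t =>
    (List.range (gn x)).map fun u => gjp x i t u

theorem p_gl1 : Poly gl1 := by unfold gl1; fun_prop

def gl2 (x : Inp) : List Job :=
  (List.range (gk x * gk x)).flatMap fun r => (List.range (gn x)).flatMap fun a =>
    (List.range (gn x)).flatMap fun b =>
      if r / gk x < r % gk x then
        (if gAdj x a b = true then [gjs x r a b, gjs x r a b] else [gjs x r a b])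
      else []

theorem p_gl2 : Poly gl2 := by unfold gl2; fun_prop

/-- the jobs -/
def gJ (x : Inp) : List Job := gl1 x ++ gl2 x

theorem gJ_eq (x : Inp) : gJ x =
    (tags (gn x) (gk x) (gAdj x)).map (jobOf (gn x) (gk x)) := by
  unfold gJ tags privs shs
  rw [List.map_append]
  congr 1
  · simp only [List.map_flatMap, List.map_map]
    rfl
  · simp only [List.map_flatMap, apply_ite (List.map _), List.map_cons, List.map_nil]
    rfl

/-- the target value -/
def gT (x : Inp) : ℕ :=
  ((List.range (gk x)).map fun i =>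
    (((gws x i).length + 1) * (gW x * (gn x + 1)) + gW x * gn x)).sum +
  ((List.range (gk x * gk x)).map fun r => if r / gk x < r % gk x then 2 * gn x else 0).sum

theorem p_gT : Poly gT := by unfold gT; fun_prop

theorem sum_range_eq (n : ℕ) (f : ℕ → ℕ) : ((List.range n).map f).sum = ∑ i ∈ range n, f i := by
  induction n with
  | zero => simp
  | succ n ih =>
    rw [List.range_succ, List.map_append, List.sum_append, ih, sum_range_succ]
    simp

theorem gT_eq (x : Inp) : gT x = target (gn x) (gk x) := by
  unfold gT target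
  rw [sum_range_eq, sum_range_eq]
  rfl

attribute [local fun_prop] p_gl1 p_gl2 p_gT

theorem p_gJ : Poly gJ := by unfold gJ; fun_prop

attribute [local fun_prop] p_gJ

/-- total weight -/
def gS (x : Inp) : ℕ := ((gJ x).map fun j => j.1).sum

theorem p_gS : Poly gS := by unfold gS; fun_prop

attribute [local fun_prop] p_gS

/-- the reduction -/
def redV (x : Inp) : (ℕ × List Job) × ℕ :=
  if x.2 ≤ x.1.length ∧ gT x ≤ gS x then ((gk x + 1, gJ x), gS x - gT x)
  else ((1, [(1, 0, 1, [])]), 0)

theorem p_redV : Poly redV := by unfold redV; fun_prop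

theorem job_ok (n k : ℕ) (adj : ℕ → ℕ → Bool) (x : Tag) (hx : x ∈ tags n k adj) :
    release (jobOf n k x) < due (jobOf n k x) ∧ ∀ i ∈ elig (jobOf n k x), i < k + 1 := by
  rcases List.mem_append.1 hx with h | h
  · obtain ⟨i, hi, t, ht, u, hu, rfl⟩ := mem_privs.1 h
    refine ⟨(wins_ws n k i (by omega)).overlap ht hu, ?_⟩
    intro j hj
    simp only [jobOf, jp, elig, List.mem_cons, List.not_mem_nil, or_false] at hj
    omega
  · obtain ⟨r, hr, a, ha, b, hb, hact, h⟩ := mem_shs.1 h
    have hj : jobOf n k x = js n k r a b := by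
      rcases h with rfl | ⟨_, rfl⟩ <;> rfl
    rw [hj]
    refine ⟨?_, ?_⟩
    · change 2 * slot n r a b + 1 < 2 * slot n r a b + 2
      omega
    · intro j hj
      have h1 := div_lt_of hr
      have h2 := mod_lt_of hr
      simp only [js, elig, List.mem_cons, List.not_mem_nil, or_false] at hj
      omega

theorem redV_ok (x : Inp) : IsInstance (redV x).1 := by
  unfold redV
  split_ifs with h
  · refine ⟨Nat.le_add_left _ _, ?_⟩
    intro j hj
    simp only at hj
    rw [gJ_eq, List.mem_map] at hj
    obtain ⟨t, ht, rfl⟩ := hj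
    exact job_ok _ _ _ t ht
  · refine ⟨le_rfl, ?_⟩
    intro j hj
    simp only [List.mem_cons, List.not_mem_nil, or_false] at hj
    subst hj
    refine ⟨Nat.zero_lt_one, ?_⟩
    intro i hi
    simp [elig] at hi

/-- the reduction -/
def red (x : Inp) : Inst × ℕ := (⟨(redV x).1, redV_ok x⟩, (redV x).2)

theorem p_red : Poly red := by
  have h : Poly (fun x => ((redV x).1, (redV x).2)) := by
    have := p_redV
    fun_prop
  exact h

theorem clq (x : Inp) (hk : x.2 ≤ x.1.length) : HasClique x ↔
    ∃ u : ℕ → ℕ, (∀ i < gk x, u i < gn x) ∧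
      ∀ i < gk x, ∀ j < gk x, i < j → gAdj x (u i) (u j) = true := by
  have h1 : gk x = x.2 := min_eq_left hk
  rw [Pool.Agent.H257R2.OS.clique_iff, h1]
  refine exists_congr fun u => and_congr_right fun _ => ?_
  constructor
  · intro h i hi j hj hij
    exact h i hi j hj hij.ne
  · intro h i hi j hj hij
    rcases Nat.lt_or_gt_of_ne hij with h2 | h2
    · exact h i hi j hj h2
    · have h3 := h j hj i hi h2
      unfold Pool.Agent.H257R2.OS.adjM
      unfold gAdj at h3
      simp only [ne_eq, Bool.and_eq_true, decide_eq_true_eq, Bool.or_eq_true] at h3 ⊢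
      exact ⟨fun h => h3.1 h.symm, h3.2.symm⟩

theorem main' (x : Inp) (hk : x.2 ≤ x.1.length) :
    HasClique x ↔ ∃ σ, IsSchedule (gJ x) σ ∧ gT x ≤ onTimeWeight (gJ x) σ := by
  rw [clq x hk, gJ_eq, gT_eq]
  rcases Nat.eq_zero_or_pos (gn x) with h | h
  · have hk0 : gk x = 0 := by
      unfold gk
      unfold gn at h
      omega
    rw [hk0]
    constructor
    · intro _
      refine ⟨fun _ => none, isSchedule_none _, ?_⟩
      unfold target
      simp
    · intro _
      exact ⟨fun _ => 0, by simp, by simp⟩
  · exact (main _ _ h _).symm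

theorem red_iff (x : Inp) : HasClique x ↔ minLate (red x).1 ≤ (red x).2 := by
  rw [minLate_le_iff]
  have hj : jobs (red x).1 = (redV x).1.2 := rfl
  rw [hj]
  by_cases h : x.2 ≤ x.1.length ∧ gT x ≤ gS x
  · have h2 : (red x).2 = gS x - gT x := by
      change (redV x).2 = _
      unfold redV
      rw [if_pos h]
    have h1 : (redV x).1.2 = gJ x := by
      unfold redV
      rw [if_pos h]
    rw [h2, h1, main' x h.1]
    refine exists_congr fun σ => and_congr_right fun _ => ?_
    have h3 := on_add_late (gJ x) σ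
    rw [total_eq] at h3
    have h4 : ((gJ x).map weight).sum = gS x := rfl
    rw [h4] at h3
    have h5 := h.2
    omega
  · have h2 : (red x).2 = 0 := by
      change (redV x).2 = _
      unfold redV
      rw [if_neg h]
    have h1 : (redV x).1.2 = [(1, 0, 1, [])] := by
      unfold redV
      rw [if_neg h]
    rw [h2, h1]
    constructor
    · intro hc
      exfalso
      by_cases hk : x.2 ≤ x.1.length
      · obtain ⟨σ, _, hσ⟩ := (main' x hk).1 hc
        apply h
        refine ⟨hk, ?_⟩
        have h3 := on_add_late (gJ x) σ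
        rw [total_eq] at h3
        have h4 : ((gJ x).map weight).sum = gS x := rfl
        omega
      · obtain ⟨S, hS⟩ := hc
        have h2 := hS.card_eq
        have h3 := S.card_le_univ
        rw [Fintype.card_fin] at h3
        omega
    · rintro ⟨σ, ⟨h3, _⟩, h4⟩
      exfalso
      have h5 : σ ⟨0, Nat.zero_lt_one⟩ = none := by
        rw [← Option.not_isSome_iff_eq_none]
        intro h6
        obtain ⟨i, hi⟩ := Option.isSome_iff_exists.1 h6
        have := h3 _ i hi
        simp [elig] at this
      have h6 : lateWeight [((1 : ℕ), (0 : ℕ), (1 : ℕ), ([] : List ℕ))] σ =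
          if (σ ⟨0, Nat.zero_lt_one⟩).isSome then 0 else 1 := by
        unfold lateWeight
        exact Fin.sum_univ_one _
      rw [h6, h5] at h4
      simp at h4

theorem red_machines (x : Inp) : machines (red x).1 ≤ x.2 + 1 := by
  change (redV x).1.1 ≤ _
  unfold redV
  split_ifs with h
  · have : gk x ≤ x.2 := min_le_left _ _
    simp only
    omega
  · simp only
    omega

/-- The decision version is `W[1]`-hard. -/
theorem w1Hard : W1Hard (fun y : Inst × ℕ => machines y.1) (fun y => minLate y.1 ≤ y.2) :=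
  W1Hard.of_clique ⟨red, fun k => k + 1, FptTime.of_poly p_red,
    add_computable Computable.id (Computable.const 1), fun a => ⟨red_iff a, red_machines a⟩⟩

/-- If the optimal value can be computed in fpt time, then all problems in `W[1]` are
fixed-parameter tractable. -/
theorem opt_collapse (h : FptTime machines minLate) {α : Type} [TEnc α]
    {κ : α → ℕ} {P : α → Prop} (hP : InW1 κ P) : IsFpt κ P := by
  refine w1Hard.collapse ?_ hP
  have h1 : FptTime (fun y : Inst × ℕ => machines y.1) (fun y => minLate y.1) :=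
    h.comp (G := fun n => n) (FptTime.of_poly (f := fun y : Inst × ℕ => y.1)
      (Poly.fst Poly.id)) Computable.id (fun _ => le_rfl)
  have h2 : FptTime (fun y : Inst × ℕ => machines y.1) (fun y => (minLate y.1, y.2)) :=
    h1.pair (FptTime.of_poly (Poly.snd Poly.id))
  refine ⟨fun y => decide (minLate y.1 ≤ y.2), ?_, fun y => by rw [decide_eq_true_iff]⟩
  exact FptTime.poly_comp (g := fun q : ℕ × ℕ => decide (q.1 ≤ q.2))
    (Poly.decide_le (Poly.fst Poly.id) (Poly.snd Poly.id)) h2

/-- the two optimal values -/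
theorem minLate_eq (I : Inst) : minLate I = ((jobs I).map weight).sum - maxOnTime I := by
  obtain ⟨σ, h1, h2⟩ := (minLate_le_iff I _).1 le_rfl
  obtain ⟨σ', h3, h4⟩ := (le_maxOnTime_iff I _).1 le_rfl
  have h5 := on_add_late (jobs I) σ
  have h6 := on_add_late (jobs I) σ'
  rw [total_eq] at h5 h6
  have h7 := (le_maxOnTime_iff I (onTimeWeight (jobs I) σ)).2 ⟨σ, h1, le_rfl⟩
  have h8 := (minLate_le_iff I (lateWeight (jobs I) σ')).2 ⟨σ', h3, le_rfl⟩
  omega

theorem opt_collapse' (h : FptTime machines maxOnTime) {α : Type} [TEnc α]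
    {κ : α → ℕ} {P : α → Prop} (hP : InW1 κ P) : IsFpt κ P := by
  refine opt_collapse ?_ hP
  have h0 : Poly (fun I : Inst => ((jobs I).map weight).sum) := by
    have e : Poly (fun I : Inst => I.1) := by
      exact (Poly.id : Poly (fun I : Inst => I))
    have e2 : Poly (fun I : ℕ × List Job => (I.2.map fun j => j.1).sum) := by fun_prop
    exact e2.comp e
  have h1 := h.pair (FptTime.of_poly (κ := machines) h0)
  have h2 : FptTime machines (fun I => ((jobs I).map weight).sum - maxOnTime I) :=
    FptTime.poly_comp (g := fun q : ℕ × ℕ => q.2 - q.1)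
      (NPC.Poly.sub (Poly.snd Poly.id) (Poly.fst Poly.id)) h1
  have h3 : minLate = fun I => ((jobs I).map weight).sum - maxOnTime I := funext minLate_eq
  rw [h3]
  exact h2

end Pool.Agent.V11225.IS
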