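import Pool.Agent.V11225.IS.Chain
import Pool.Agent.V11225.IS.Defs

/-!
# The reduction from Clique
-/

namespace Pool.Agent.V11225.IS

open Finset

/-- the windows of machine `i` -/
def ws (n k i : ℕ) : List (ℕ × ℕ) :=
  (List.range (k * k)).flatMap fun r =>
    if r % k = i then [(r * (n * n), n)] else (List.range n).map fun b => (r * (n * n) + b * n, 1)

/-- number of slots -/
def PP (n k : ℕ) : ℕ := k * k * (n * n)

theorem mem_ws {n k i : ℕ} {w : ℕ × ℕ} : w ∈ ws n k i ↔ ∃ r < k * k,
    (r % k = i ∧ w = (r * (n * n), n)) ∨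
      (r % k ≠ i ∧ ∃ b < n, w = (r * (n * n) + b * n, 1)) := by
  unfold ws
  simp only [List.mem_flatMap, List.mem_range]
  refine exists_congr fun r => and_congr_right fun _ => ?_
  split_ifs with h
  · simp [h]
  · simp [h, eq_comm]

theorem slot_div {n r b a : ℕ} (hb : b < n) (ha : a < n) :
    (r * (n * n) + b * n + a) / n = r * n + b ∧ (r * (n * n) + b * n + a) % n = a := by
  have e : r * (n * n) + b * n + a = a + n * (r * n + b) := by ring
  have hn : 0 < n := by omega
  rw [e, Nat.add_mul_div_left _ _ hn, Nat.add_mul_mod_self_left, Nat.div_eq_of_lt ha,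
    Nat.mod_eq_of_lt ha]
  exact ⟨by omega, rfl⟩

theorem rb_inj {n r b r' b' : ℕ} (hb : b < n) (hb' : b' < n) (h : r * n + b = r' * n + b') :
    r = r' ∧ b = b' := by
  have hn : 0 < n := by omega
  have e1 : (r * n + b) / n = r := by
    rw [Nat.add_comm, Nat.add_mul_div_right _ _ hn, Nat.div_eq_of_lt hb, Nat.zero_add]
  have e2 : (r' * n + b') / n = r' := by
    rw [Nat.add_comm, Nat.add_mul_div_right _ _ hn, Nat.div_eq_of_lt hb', Nat.zero_add]
  have e3 : r = r' := by rw [← e1, ← e2, h]
  subst e3
  exact ⟨rfl, by omega⟩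

theorem slot_inj {n r b a r' b' a' : ℕ} (hb : b < n) (ha : a < n) (hb' : b' < n) (ha' : a' < n)
    (h : r * (n * n) + b * n + a = r' * (n * n) + b' * n + a') : r = r' ∧ b = b' ∧ a = a' := by
  have h1 := slot_div (r := r) hb ha
  have h2 := slot_div (r := r') hb' ha'
  rw [h] at h1
  have h3 := rb_inj hb hb' (h1.1.symm.trans h2.1)
  exact ⟨h3.1, h3.2, h1.2.symm.trans h2.2⟩

theorem reg_le {n r R b : ℕ} (hr : r < R) (hb : b < n) :
    r * (n * n) + b * n + n ≤ R * (n * n) := by
  have h1 : (r + 1) * (n * n) ≤ R * (n * n) := Nat.mul_le_mul_right _ hr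
  have h2 : (b + 1) * n ≤ n * n := Nat.mul_le_mul_right _ hb
  rw [Nat.add_mul, Nat.one_mul] at h1 h2
  omega

theorem reg_le' {n r R : ℕ} (hr : r < R) : r * (n * n) + n * n ≤ R * (n * n) := by
  have h1 : (r + 1) * (n * n) ≤ R * (n * n) := Nat.mul_le_mul_right _ hr
  rwa [Nat.add_mul, Nat.one_mul] at h1

theorem wins_ws (n k i : ℕ) (hn : 0 < n) : Wins n (PP n k) (ws n k i) := by
  refine ⟨?_, ?_, ?_⟩
  · unfold ws
    rw [List.pairwise_flatMap]
    constructor
    · intro r _
      split_ifs with h
      · exact List.pairwise_singleton _ _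
      · rw [List.pairwise_map]
        refine List.pairwise_lt_range.imp ?_
        intro a b hab
        simp only [one_mul]
        have : (a + 1) * n ≤ b * n := Nat.mul_le_mul_right _ hab
        rw [Nat.add_mul, Nat.one_mul] at this
        omega
    · refine List.pairwise_lt_range.imp ?_
      intro r s hrs x hx y hy
      have hx' : x.1 + x.2 * n ≤ s * (n * n) := by
        split_ifs at hx with h
        · rw [List.mem_singleton] at hx
          rw [hx]
          exact reg_le' hrs
        · rw [List.mem_map] at hx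
          obtain ⟨b, hb, rfl⟩ := hx
          simp only [one_mul]
          exact reg_le hrs (List.mem_range.1 hb)
      have hy' : s * (n * n) ≤ y.1 := by
        split_ifs at hy with h
        · rw [List.mem_singleton] at hy
          rw [hy]
        · rw [List.mem_map] at hy
          obtain ⟨b, hb, rfl⟩ := hy
          exact Nat.le_add_right _ _
      exact hx'.trans hy'
  · intro x hx
    obtain ⟨r, _, h | ⟨_, b, _, h⟩⟩ := mem_ws.1 hx
    · rw [h.2]; exact hn
    · rw [h]
  · intro x hx
    unfold PP
    obtain ⟨r, hr, h | ⟨_, b, hb, h⟩⟩ := mem_ws.1 hx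
    · rw [h.2]
      exact reg_le' hr
    · rw [h]
      simp only [one_mul]
      exact reg_le hr hb

/-- which slots are open on machine `i` with value `u` -/
theorem open_iff {n k i u r b a : ℕ} (hu : u < n) (hb : b < n) (ha : a < n) (hr : r < k * k) :
    (∃ w ∈ ws n k i, w.1 + w.2 * u ≤ r * (n * n) + b * n + a ∧
      r * (n * n) + b * n + a < w.1 + w.2 * u + w.2) ↔
    (r % k = i ∧ b = u) ∨ (r % k ≠ i ∧ a = u) := by
  constructor
  · rintro ⟨w, hw, h1, h2⟩
    obtain ⟨r', hr', ⟨h3, rfl⟩ | ⟨h3, b', hb', rfl⟩⟩ := mem_ws.1 hw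
    · simp only at h1 h2
      left
      have hn : 0 < n := by omega
      have h4 : r * n + b = r' * n + u := by
        apply Nat.le_antisymm
        · have h5 : (r * n + b) * n < (r' * n + u + 1) * n := by nlinarith
          have := Nat.lt_of_mul_lt_mul_right h5
          omega
        · have h5 : (r' * n + u) * n < (r * n + b + 1) * n := by nlinarith
          have := Nat.lt_of_mul_lt_mul_right h5
          omega
      have h5 := rb_inj hb hu h4
      rw [h5.1]
      exact ⟨h3, h5.2⟩
    · simp only [one_mul] at h1 h2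
      right
      have h4 : r * (n * n) + b * n + a = r' * (n * n) + b' * n + u := by omega
      have h5 := slot_inj hb ha hb' hu h4
      rw [h5.1]
      exact ⟨h3, h5.2.2⟩
  · rintro (⟨h1, rfl⟩ | ⟨h1, rfl⟩)
    · refine ⟨(r * (n * n), n), mem_ws.2 ⟨r, hr, Or.inl ⟨h1, rfl⟩⟩, ?_, ?_⟩
      · simp only
        rw [Nat.mul_comm n b]
        omega
      · simp only
        rw [Nat.mul_comm n b]
        omega
    · refine ⟨(r * (n * n) + b * n, 1), mem_ws.2 ⟨r, hr, Or.inr ⟨h1, b, hb, rfl⟩⟩, ?_, ?_⟩
      · simp only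
        omega
      · simp only
        omega

/-- names of the jobs: private jobs (machine, number, value) and shared jobs (copy, region, slot) -/
abbrev Tag := (ℕ × ℕ × ℕ) ⊕ (Bool × ℕ × ℕ × ℕ)

/-- the private jobs -/
def privs (n k : ℕ) : List Tag :=
  (List.range k).flatMap fun i => (List.range ((ws n k i).length + 1)).flatMap fun t =>
    (List.range n).map fun u => Sum.inl (i, t, u)

/-- the shared jobs -/
def shs (n k : ℕ) (adj : ℕ → ℕ → Bool) : List Tag :=
  (List.range (k * k)).flatMap fun r => (List.range n).flatMap fun a =>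
    (List.range n).flatMap fun b =>
      if r / k < r % k then
        (if adj a b = true then [Sum.inr (false, r, a, b), Sum.inr (true, r, a, b)]
          else [Sum.inr (false, r, a, b)])
      else []

/-- the jobs -/
def tags (n k : ℕ) (adj : ℕ → ℕ → Bool) : List Tag := privs n k ++ shs n k adj

/-- the large weight -/
def WW (n k : ℕ) : ℕ := 2 * (k * k * (n * n)) + 1

/-- private jobs -/
def jp (n k i t u : ℕ) : Job :=
  (pw n (WW n k) (ws n k i).length t u, pa (ws n k i) t u, pb (PP n k) (ws n k i) t u, [i])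

/-- the slot of a shared job -/
def slot (n r a b : ℕ) : ℕ := r * (n * n) + b * n + a

/-- shared jobs -/
def js (n k r a b : ℕ) : Job :=
  (1, 2 * slot n r a b + 1, 2 * slot n r a b + 2, [r / k, r % k])

/-- the data of the jobs -/
def jobOf (n k : ℕ) : Tag → Job
  | .inl (i, t, u) => jp n k i t u
  | .inr (_, r, a, b) => js n k r a b

/-- the target value -/
def target (n k : ℕ) : ℕ :=
  (∑ i ∈ range k, (((ws n k i).length + 1) * (WW n k * (n + 1)) + WW n k * n)) +
  ∑ r ∈ range (k * k), (if r / k < r % k then 2 * n else 0)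

theorem mem_privs {n k : ℕ} {x : Tag} : x ∈ privs n k ↔
    ∃ i < k, ∃ t ≤ (ws n k i).length, ∃ u < n, x = Sum.inl (i, t, u) := by
  unfold privs
  simp only [List.mem_flatMap, List.mem_range, List.mem_map, Nat.lt_succ_iff, eq_comm]

theorem mem_shs {n k : ℕ} {adj : ℕ → ℕ → Bool} {x : Tag} : x ∈ shs n k adj ↔
    ∃ r < k * k, ∃ a < n, ∃ b < n, r / k < r % k ∧
      (x = Sum.inr (false, r, a, b) ∨ (adj a b = true ∧ x = Sum.inr (true, r, a, b))) := by
  unfold shs
  simp only [List.mem_flatMap, List.mem_range]
  refine exists_congr fun r => and_congr_right fun _ => exists_congr fun a =>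
    and_congr_right fun _ => exists_congr fun b => and_congr_right fun _ => ?_
  split_ifs with h1 h2
  · simp [h1, h2]
  · simp [h1, h2]
  · simp [h1]

theorem nodup_privs (n k : ℕ) : (privs n k).Nodup := by
  unfold privs
  rw [List.nodup_flatMap]
  constructor
  · intro i _
    rw [List.nodup_flatMap]
    constructor
    · intro t _
      exact List.nodup_range.map fun a b h => by simpa using h
    · refine List.nodup_range.imp ?_
      intro t t' htt
      rw [Function.onFun, List.disjoint_left]
      intro x hx hx'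
      obtain ⟨u, _, rfl⟩ := List.mem_map.1 hx
      obtain ⟨u', _, h⟩ := List.mem_map.1 hx'
      simp only [Sum.inl.injEq, Prod.mk.injEq] at h
      exact htt h.2.1.symm
  · refine List.nodup_range.imp ?_
    intro i i' hii
    rw [Function.onFun, List.disjoint_left]
    intro x hx hx'
    obtain ⟨t, _, h1⟩ := List.mem_flatMap.1 hx
    obtain ⟨u, _, rfl⟩ := List.mem_map.1 h1
    obtain ⟨t', _, h2⟩ := List.mem_flatMap.1 hx'
    obtain ⟨u', _, h⟩ := List.mem_map.1 h2
    simp only [Sum.inl.injEq, Prod.mk.injEq] at h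
    exact hii h.1.symm

theorem mem_cell {r a b : ℕ} {p : Prop} [Decidable p] {q : Bool} {x : Tag}
    (h : x ∈ (if p then
        (if q = true then [Sum.inr (false, r, a, b), Sum.inr (true, r, a, b)]
          else [Sum.inr (false, r, a, b)])
      else ([] : List Tag))) : ∃ c, x = Sum.inr (c, r, a, b) := by
  split_ifs at h
  · simp only [List.mem_cons, List.not_mem_nil, or_false] at h
    rcases h with h | h
    · exact ⟨_, h⟩
    · exact ⟨_, h⟩
  · simp only [List.mem_cons, List.not_mem_nil, or_false] at h
    exact ⟨_, h⟩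
  · simp at h

theorem nodup_shs (n k : ℕ) (adj : ℕ → ℕ → Bool) : (shs n k adj).Nodup := by
  unfold shs
  rw [List.nodup_flatMap]
  constructor
  · intro r _
    rw [List.nodup_flatMap]
    constructor
    · intro a _
      rw [List.nodup_flatMap]
      constructor
      · intro b _
        split_ifs <;> simp
      · refine List.nodup_range.imp ?_
        intro b b' hbb
        rw [Function.onFun, List.disjoint_left]
        intro x hx hx'
        obtain ⟨c, rfl⟩ := mem_cell hx
        obtain ⟨c', h⟩ := mem_cell hx'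
        simp only [Sum.inr.injEq, Prod.mk.injEq] at h
        exact hbb h.2.2.2
    · refine List.nodup_range.imp ?_
      intro a a' haa
      rw [Function.onFun, List.disjoint_left]
      intro x hx hx'
      obtain ⟨b, _, h1⟩ := List.mem_flatMap.1 hx
      obtain ⟨c, rfl⟩ := mem_cell h1
      obtain ⟨b', _, h1'⟩ := List.mem_flatMap.1 hx'
      obtain ⟨c', h⟩ := mem_cell h1'
      simp only [Sum.inr.injEq, Prod.mk.injEq] at h
      exact haa h.2.2.1
  · refine List.nodup_range.imp ?_
    intro r r' hrr
    rw [Function.onFun, List.disjoint_left]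
    intro x hx hx'
    obtain ⟨a, _, h0⟩ := List.mem_flatMap.1 hx
    obtain ⟨b, _, h1⟩ := List.mem_flatMap.1 h0
    obtain ⟨c, rfl⟩ := mem_cell h1
    obtain ⟨a', _, h0'⟩ := List.mem_flatMap.1 hx'
    obtain ⟨b', _, h1'⟩ := List.mem_flatMap.1 h0'
    obtain ⟨c', h⟩ := mem_cell h1'
    simp only [Sum.inr.injEq, Prod.mk.injEq] at h
    exact hrr h.2.1

theorem nodup_tags (n k : ℕ) (adj : ℕ → ℕ → Bool) : (tags n k adj).Nodup := by
  unfold tags
  refine List.nodup_append.2 ⟨nodup_privs n k, nodup_shs n k adj, ?_⟩
  intro x hx y hy hxy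
  obtain ⟨_, _, _, _, _, _, rfl⟩ := mem_privs.1 hx
  obtain ⟨_, _, _, _, _, _, _, h⟩ := mem_shs.1 hy
  rcases h with h | ⟨_, h⟩ <;> rw [h] at hxy <;> simp at hxy

theorem sum_flatMap_range {τ : Type} (n : ℕ) (f : ℕ → List τ) (g : τ → ℕ) :
    (((List.range n).flatMap f).map g).sum = ∑ i ∈ range n, ((f i).map g).sum := by
  induction n with
  | zero => simp
  | succ n ih =>
    rw [List.range_succ, List.flatMap_append, List.map_append, List.sum_append, ih,
      sum_range_succ]
    simp

theorem sum_map_range {τ : Type} (n : ℕ) (f : ℕ → τ) (g : τ → ℕ) :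
    (((List.range n).map f).map g).sum = ∑ i ∈ range n, g (f i) := by
  induction n with
  | zero => simp
  | succ n ih =>
    rw [List.range_succ, List.map_append, List.map_append, List.sum_append, ih,
      sum_range_succ]
    simp

theorem sum_tags (n k : ℕ) (adj : ℕ → ℕ → Bool) (g : Tag → ℕ) :
    ((tags n k adj).map g).sum =
    (∑ i ∈ range k, ∑ t ∈ range ((ws n k i).length + 1), ∑ u ∈ range n, g (Sum.inl (i, t, u))) +
    ∑ r ∈ range (k * k), ∑ a ∈ range n, ∑ b ∈ range n,
      (if r / k < r % k then g (Sum.inr (false, r, a, b)) +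
        (if adj a b = true then g (Sum.inr (true, r, a, b)) else 0) else 0) := by
  unfold tags privs shs
  rw [List.map_append, List.sum_append, sum_flatMap_range, sum_flatMap_range]
  congr 1
  · refine sum_congr rfl fun i _ => ?_
    rw [sum_flatMap_range]
    refine sum_congr rfl fun t _ => ?_
    rw [sum_map_range]
  · refine sum_congr rfl fun r _ => ?_
    rw [sum_flatMap_range]
    refine sum_congr rfl fun a _ => ?_
    rw [sum_flatMap_range]
    refine sum_congr rfl fun b _ => ?_
    split_ifs <;> simp

end Pool.Agent.V11225.IS
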