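import Pool.Agent.V11225.IS.Red

/-!
# Soundness of the reduction
-/

namespace Pool.Agent.V11225.IS

open Finset

/-- `s` is a schedule of the constructed jobs -/
structure Sch (n k : ℕ) (adj : ℕ → ℕ → Bool) (s : Tag → Option ℕ) : Prop where
  elig : ∀ x ∈ tags n k adj, ∀ i, s x = some i → i ∈ elig (jobOf n k x)
  disj : ∀ x ∈ tags n k adj, ∀ y ∈ tags n k adj, ∀ i, x ≠ y → s x = some i → s y = some i →
    due (jobOf n k x) ≤ release (jobOf n k y) ∨ due (jobOf n k y) ≤ release (jobOf n k x)

variable {n k : ℕ} {adj : ℕ → ℕ → Bool} {s : Tag → Option ℕ}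

theorem priv_mem {i t u : ℕ} (hi : i < k) (ht : t ≤ (ws n k i).length) (hu : u < n) :
    (Sum.inl (i, t, u) : Tag) ∈ tags n k adj :=
  List.mem_append_left _ (mem_privs.2 ⟨i, hi, t, ht, u, hu, rfl⟩)

theorem sh_mem {r a b : ℕ} (hr : r < k * k) (ha : a < n) (hb : b < n) (h : r / k < r % k) :
    (Sum.inr (false, r, a, b) : Tag) ∈ tags n k adj :=
  List.mem_append_right _ (mem_shs.2 ⟨r, hr, a, ha, b, hb, h, Or.inl rfl⟩)

theorem sh_mem' {r a b : ℕ} (hr : r < k * k) (ha : a < n) (hb : b < n) (h : r / k < r % k)
    (hadj : adj a b = true) : (Sum.inr (true, r, a, b) : Tag) ∈ tags n k adj :=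
  List.mem_append_right _ (mem_shs.2 ⟨r, hr, a, ha, b, hb, h, Or.inr ⟨hadj, rfl⟩⟩)

theorem sh_mem_all {c : Bool} {r a b : ℕ} (hr : r < k * k) (ha : a < n) (hb : b < n)
    (h : r / k < r % k) (hadj : c = true → adj a b = true) :
    (Sum.inr (c, r, a, b) : Tag) ∈ tags n k adj := by
  cases c
  · exact sh_mem hr ha hb h
  · exact sh_mem' hr ha hb h (hadj rfl)

/-- a private job is processed by its machine or not at all -/
theorem Sch.priv (h : Sch n k adj s) {i t u : ℕ} (hi : i < k) (ht : t ≤ (ws n k i).length)
    (hu : u < n) (hs : (s (Sum.inl (i, t, u))).isSome) : s (Sum.inl (i, t, u)) = some i := by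
  obtain ⟨j, hj⟩ := Option.isSome_iff_exists.1 hs
  have := h.elig _ (priv_mem hi ht hu) j hj
  simp only [jobOf, jp, IS.elig, List.mem_cons, List.not_mem_nil, or_false] at this
  rw [hj, this]

/-- the private jobs of machine `i` -/
theorem Sch.chain (h : Sch n k adj s) (hn : 0 < n) {i : ℕ} (hi : i < k) :
    (∑ t ∈ range ((ws n k i).length + 1), ∑ u ∈ range n,
      if (s (Sum.inl (i, t, u))).isSome then pw n (WW n k) (ws n k i).length t u else 0) + WW n k ≤
        ((ws n k i).length + 1) * (WW n k * (n + 1)) + WW n k * n ∨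
    ((∑ t ∈ range ((ws n k i).length + 1), ∑ u ∈ range n,
      if (s (Sum.inl (i, t, u))).isSome then pw n (WW n k) (ws n k i).length t u else 0) ≤
        ((ws n k i).length + 1) * (WW n k * (n + 1)) + WW n k * n ∧
      ∃ u < n, ∀ t ≤ (ws n k i).length, (s (Sum.inl (i, t, u))).isSome) := by
  have hW := wins_ws n k i hn
  refine chain_weight _ n (WW n k) (fun t u => (s (Sum.inl (i, t, u))).isSome = true) ?_ ?_
  · intro t ht u hu u' hu' h1 h2
    by_contra hne
    have h3 := h.disj _ (priv_mem hi ht hu) _ (priv_mem hi ht hu') i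
      (by simpa using hne) (h.priv hi ht hu h1) (h.priv hi ht hu' h2)
    change pb (PP n k) (ws n k i) t u ≤ pa (ws n k i) t u' ∨
      pb (PP n k) (ws n k i) t u' ≤ pa (ws n k i) t u at h3
    have h4 := hW.overlap (t := t) (u := u) (u' := u') ht hu
    have h5 := hW.overlap (t := t) (u := u') (u' := u) ht hu'
    omega
  · intro t ht u hu u' hu' h1 h2
    have h3 := h.disj _ (priv_mem hi ht.le hu) _ (priv_mem hi (t := t + 1) ht hu') i
      (by simp) (h.priv hi ht.le hu h1) (h.priv hi ht hu' h2)
    exact hW.mono ht hu hu' h3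

/-- a shared job on machine `i` (with value `u`) is in an open slot -/
theorem Sch.opens (h : Sch n k adj s) {i u : ℕ} (hi : i < k) (hu : u < n)
    (hall : ∀ t ≤ (ws n k i).length, (s (Sum.inl (i, t, u))).isSome) {c : Bool} {r a b : ℕ}
    (hr : r < k * k) (ha : a < n) (hb : b < n) (hact : r / k < r % k)
    (hadj : c = true → adj a b = true) (hs : s (Sum.inr (c, r, a, b)) = some i) :
    (r % k = i ∧ b = u) ∨ (r % k ≠ i ∧ a = u) := by
  rw [← open_iff hu hb ha hr]
  refine open_of_free (P := PP n k) ?_ ?_
  · have := reg_le hr hb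
    unfold PP
    omega
  · intro t ht
    have h3 := h.disj _ (sh_mem_all hr ha hb hact hadj) _ (priv_mem hi ht hu) i (by simp) hs
      (h.priv hi ht hu (hall t ht))
    exact h3

theorem div_lt_of {r k : ℕ} (hr : r < k * k) : r / k < k := Nat.div_lt_of_lt_mul hr

theorem mod_lt_of {r k : ℕ} (hr : r < k * k) : r % k < k := by
  refine Nat.mod_lt _ ?_
  rcases Nat.eq_zero_or_pos k with h | h
  · subst h; simp at hr
  · exact h

/-- the shared jobs of a slot -/
theorem Sch.cell (h : Sch n k adj s) {u : ℕ → ℕ} (hu : ∀ i < k, u i < n)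
    (hall : ∀ i < k, ∀ t ≤ (ws n k i).length, (s (Sum.inl (i, t, u i))).isSome) {r a b : ℕ}
    (hr : r < k * k) (ha : a < n) (hb : b < n) (hact : r / k < r % k) :
    (if (s (Sum.inr (false, r, a, b))).isSome then 1 else 0) +
        (if adj a b = true then (if (s (Sum.inr (true, r, a, b))).isSome then 1 else 0) else 0) ≤
      (if a = u (r / k) then 1 else 0) + (if b = u (r % k) then 1 else 0) := by
  have hi := div_lt_of hr
  have hj := mod_lt_of hr
  -- each shared job which is on time is on machine `r / k` and `a` is right, or it is on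
  -- machine `r % k` and `b` is right
  have key : ∀ c : Bool, (c = true → adj a b = true) → (s (Sum.inr (c, r, a, b))).isSome →
      (s (Sum.inr (c, r, a, b)) = some (r / k) ∧ a = u (r / k)) ∨
      (s (Sum.inr (c, r, a, b)) = some (r % k) ∧ b = u (r % k)) := by
    intro c hc hs
    obtain ⟨j, hj'⟩ := Option.isSome_iff_exists.1 hs
    have h1 := h.elig _ (sh_mem_all hr ha hb hact hc) j hj'
    simp only [jobOf, js, IS.elig, List.mem_cons, List.not_mem_nil, or_false] at h1
    rcases h1 with h1 | h1
    · subst h1
      have h2 := h.opens hi (hu _ hi) (hall _ hi) hr ha hb hact hc hj'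
      left
      refine ⟨hj', ?_⟩
      rcases h2 with h2 | h2
      · omega
      · exact h2.2
    · subst h1
      have h2 := h.opens hj (hu _ hj) (hall _ hj) hr ha hb hact hc hj'
      right
      refine ⟨hj', ?_⟩
      rcases h2 with h2 | h2
      · exact h2.2
      · exact absurd rfl h2.1
  have k0 := key false (by simp)
  by_cases h0 : (s (Sum.inr (false, r, a, b))).isSome
  · by_cases h1 : adj a b = true ∧ (s (Sum.inr (true, r, a, b))).isSome
    · have k1 := key true (fun _ => h1.1) h1.2
      have k0' := k0 h0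
      rw [if_pos h0, if_pos h1.1, if_pos h1.2]
      have hdis : ∀ i, s (Sum.inr (false, r, a, b)) = some i →
          s (Sum.inr (true, r, a, b)) ≠ some i := by
        intro i e1 e2
        have h3 := h.disj _ (sh_mem hr ha hb hact) _ (sh_mem' hr ha hb hact h1.1) i (by simp) e1 e2
        change 2 * slot n r a b + 2 ≤ 2 * slot n r a b + 1 ∨
          2 * slot n r a b + 2 ≤ 2 * slot n r a b + 1 at h3
        omega
      rcases k0' with g0 | g0 <;> rcases k1 with g1 | g1
      · exact absurd g1.1 (hdis _ g0.1)
      · rw [if_pos g0.2, if_pos g1.2]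
      · rw [if_pos g1.2, if_pos g0.2]
      · exact absurd g1.1 (hdis _ g0.1)
    · have : (if adj a b = true then (if (s (Sum.inr (true, r, a, b))).isSome then 1 else 0)
          else 0) = 0 := by
        split_ifs with e1 e2
        · exact absurd ⟨e1, e2⟩ h1
        · rfl
        · rfl
      rw [this, if_pos h0]
      rcases k0 h0 with g0 | g0
      · rw [if_pos g0.2]; omega
      · rw [if_pos g0.2]; omega
  · rw [if_neg h0]
    by_cases h1 : adj a b = true ∧ (s (Sum.inr (true, r, a, b))).isSome
    · have k1 := key true (fun _ => h1.1) h1.2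
      rw [if_pos h1.1, if_pos h1.2]
      rcases k1 with g0 | g0
      · rw [if_pos g0.2]; omega
      · rw [if_pos g0.2]; omega
    · have : (if adj a b = true then (if (s (Sum.inr (true, r, a, b))).isSome then 1 else 0)
          else 0) = 0 := by
        split_ifs with e1 e2
        · exact absurd ⟨e1, e2⟩ h1
        · rfl
        · rfl
      rw [this]
      omega

theorem sum_cells (n v w : ℕ) (hv : v < n) (hw : w < n) :
    (∑ a ∈ range n, ∑ b ∈ range n, ((if a = v then 1 else 0) + (if b = w then 1 else 0))) =
      2 * n := by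
  simp only [sum_add_distrib, sum_const, card_range, smul_eq_mul, sum_ite_eq',
    mem_range, hv, hw, if_true, mul_one]
  rw [← mul_sum, sum_ite_eq', if_pos (mem_range.2 hv)]
  omega

/-- weight of the jobs which are on time -/
def val (n k : ℕ) (adj : ℕ → ℕ → Bool) (s : Tag → Option ℕ) : ℕ :=
  ((tags n k adj).map (fun x => if (s x).isSome then weight (jobOf n k x) else 0)).sum

theorem val_eq (n k : ℕ) (adj : ℕ → ℕ → Bool) (s : Tag → Option ℕ) : val n k adj s =
    (∑ i ∈ range k, ∑ t ∈ range ((ws n k i).length + 1), ∑ u ∈ range n,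
      if (s (Sum.inl (i, t, u))).isSome then pw n (WW n k) (ws n k i).length t u else 0) +
    ∑ r ∈ range (k * k), ∑ a ∈ range n, ∑ b ∈ range n,
      (if r / k < r % k then (if (s (Sum.inr (false, r, a, b))).isSome then 1 else 0) +
        (if adj a b = true then (if (s (Sum.inr (true, r, a, b))).isSome then 1 else 0) else 0)
        else 0) := by
  unfold val
  rw [sum_tags]
  rfl

/-- few shared jobs -/
theorem shared_lt (n k : ℕ) (adj : ℕ → ℕ → Bool) (s : Tag → Option ℕ) :
    (∑ r ∈ range (k * k), ∑ a ∈ range n, ∑ b ∈ range n,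
      (if r / k < r % k then (if (s (Sum.inr (false, r, a, b))).isSome then 1 else 0) +
        (if adj a b = true then (if (s (Sum.inr (true, r, a, b))).isSome then 1 else 0) else 0)
        else 0)) < WW n k := by
  unfold WW
  refine Nat.lt_succ_of_le ?_
  calc _ ≤ ∑ r ∈ range (k * k), ∑ a ∈ range n, ∑ b ∈ range n, 2 := by
        refine sum_le_sum fun r _ => sum_le_sum fun a _ => sum_le_sum fun b _ => ?_
        split_ifs <;> omega
    _ = 2 * (k * k * (n * n)) := by
        simp only [sum_const, card_range, smul_eq_mul]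
        ring

/-- a schedule of value `target` gives a clique -/
theorem Sch.sound (h : Sch n k adj s) (hn : 0 < n) (hv : target n k ≤ val n k adj s) :
    ∃ u : ℕ → ℕ, (∀ i < k, u i < n) ∧ ∀ i < k, ∀ j < k, i < j → adj (u i) (u j) = true := by
  rw [val_eq] at hv
  unfold target at hv
  have hsh := shared_lt n k adj s
  -- every machine has a value
  have hgood : ∀ i < k, ∃ u < n, ∀ t ≤ (ws n k i).length, (s (Sum.inl (i, t, u))).isSome := by
    intro i hi
    rcases h.chain hn hi with hc | hc
    · exfalso
      have h1 : (∑ i ∈ range k, ∑ t ∈ range ((ws n k i).length + 1), ∑ u ∈ range n,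
          if (s (Sum.inl (i, t, u))).isSome then pw n (WW n k) (ws n k i).length t u else 0) +
          WW n k ≤
          ∑ i ∈ range k, (((ws n k i).length + 1) * (WW n k * (n + 1)) + WW n k * n) := by
        rw [← Finset.add_sum_erase _ _ (mem_range.2 hi),
          ← Finset.add_sum_erase (range k)
            (fun i => (((ws n k i).length + 1) * (WW n k * (n + 1)) + WW n k * n))
            (mem_range.2 hi)]
        have h2 : ∀ j ∈ (range k).erase i,
            (∑ t ∈ range ((ws n k j).length + 1), ∑ u ∈ range n,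
            if (s (Sum.inl (j, t, u))).isSome then pw n (WW n k) (ws n k j).length t u else 0) ≤
            ((ws n k j).length + 1) * (WW n k * (n + 1)) + WW n k * n := by
          intro j hj
          rcases h.chain hn (mem_range.1 (mem_of_mem_erase hj)) with hc | hc
          · exact le_trans (Nat.le_add_right _ _) hc
          · exact hc.1
        have h3 := sum_le_sum h2
        omega
      omega
    · exact hc.2
  choose! u hu hall using hgood
  refine ⟨u, hu, ?_⟩
  have h1 : (∑ i ∈ range k, ∑ t ∈ range ((ws n k i).length + 1), ∑ u ∈ range n,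
      if (s (Sum.inl (i, t, u))).isSome then pw n (WW n k) (ws n k i).length t u else 0) ≤
      ∑ i ∈ range k, (((ws n k i).length + 1) * (WW n k * (n + 1)) + WW n k * n) := by
    refine sum_le_sum fun i hi => ?_
    rcases h.chain hn (mem_range.1 hi) with hc | hc
    · exact le_trans (Nat.le_add_right _ _) hc
    · exact hc.1
  intro i hi j hj hij
  by_contra hadj
  have hk : 0 < k := by omega
  have hd : (i * k + j) / k = i := by
    rw [Nat.add_comm, Nat.add_mul_div_right _ _ hk, Nat.div_eq_of_lt hj, Nat.zero_add]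
  have hm : (i * k + j) % k = j := by
    rw [Nat.add_comm, Nat.add_mul_mod_self_right, Nat.mod_eq_of_lt hj]
  have hr : i * k + j < k * k := by
    have : (i + 1) * k ≤ k * k := Nat.mul_le_mul_right _ hi
    rw [Nat.add_mul, Nat.one_mul] at this
    omega
  -- the bound of a region
  have hreg : ∀ r ∈ range (k * k), (∑ a ∈ range n, ∑ b ∈ range n,
      (if r / k < r % k then (if (s (Sum.inr (false, r, a, b))).isSome then 1 else 0) +
        (if adj a b = true then (if (s (Sum.inr (true, r, a, b))).isSome then 1 else 0) else 0)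
        else 0)) ≤ if r / k < r % k then 2 * n else 0 := by
    intro r hr
    have hr' := mem_range.1 hr
    split_ifs with hact
    · rw [← sum_cells n (u (r / k)) (u (r % k)) (hu _ (div_lt_of hr')) (hu _ (mod_lt_of hr'))]
      refine sum_le_sum fun a ha => sum_le_sum fun b hb => ?_
      exact h.cell hu hall hr' (mem_range.1 ha) (mem_range.1 hb) hact
    · simp
  have hlt : (∑ a ∈ range n, ∑ b ∈ range n,
      (if (i * k + j) / k < (i * k + j) % k then
        (if (s (Sum.inr (false, (i * k + j), a, b))).isSome then 1 else 0) +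
        (if adj a b = true then (if (s (Sum.inr (true, (i * k + j), a, b))).isSome then 1 else 0)
          else 0) else 0)) < if (i * k + j) / k < (i * k + j) % k then 2 * n else 0 := by
    have hact : (i * k + j) / k < (i * k + j) % k := by rw [hd, hm]; exact hij
    simp only [if_pos hact]
    rw [← sum_cells n (u ((i * k + j) / k)) (u ((i * k + j) % k)) (hu _ (div_lt_of hr))
      (hu _ (mod_lt_of hr))]
    refine sum_lt_sum (fun a ha => sum_le_sum fun b hb =>
      h.cell hu hall hr (mem_range.1 ha) (mem_range.1 hb) hact) ⟨u i, mem_range.2 (hu i hi), ?_⟩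
    refine sum_lt_sum (fun b hb =>
      h.cell hu hall hr (hu i hi) (mem_range.1 hb) hact) ⟨u j, mem_range.2 (hu j hj), ?_⟩
    rw [hd, hm, if_neg hadj, if_pos rfl, if_pos rfl]
    split_ifs <;> omega
  have := sum_lt_sum hreg ⟨_, mem_range.2 hr, hlt⟩
  omega

end Pool.Agent.V11225.IS
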